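import Pool.Agent.Lib.UMB.AREA.Fin
import Pool.Agent.Lib.UMB.Asm.Defs

set_option autoImplicit false

/-!
# UMB block AREA: the two forms with the notation of `Asm/Defs.lean`
-/

open Filter Topology Set MeasureTheory
open scoped ContDiff

namespace UMB.AREA

open Pool.Agent.Lib.PenroseSph (E3 Tens pd gradNorm)

theorem BT_eq {g : Tens} {θ : E3 → ℝ} {R q s t : ℝ} : UMB.BT g θ R q s t = UMB.AREA.BT g θ R q s t := by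
  have e : {x : E3 | (1 < ‖x‖ ∧ ‖x‖ < R) ∧ s ≤ θ x ∧ θ x < t} = bandT θ R s t := by
    ext x
    exact ⟨fun h => ⟨h.1.1, h.1.2, h.2.1, h.2.2⟩, fun h => ⟨⟨h.1, h.2.1⟩, h.2.2.1, h.2.2.2⟩⟩
  unfold UMB.BT BT
  rw [e]

/-- The form of `Asm/Top.lean`. -/
theorem area_fin' {g : Tens} {a : ℝ} (hg : AF g a) {C0 M κ : ℝ} (hC0 : 0 ≤ C0) (hM : 0 ≤ M) (hκ : 0 < κ) :
    ∃ q0 : ℝ, 0 < q0 ∧ q0 ≤ 1 ∧ ∀ q : ℝ, 0 < q → q ≤ q0 → ∃ φ0 : ℝ, 0 < φ0 ∧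
      ∀ (R T : ℝ) (θ : E3 → ℝ) (Cc φ : ℝ), LevFun θ R T → q ^ 2 / 8 < T →
        (∀ᵐ τ : ℝ, 0 < τ → τ < T → ∀ x : E3, 1 < ‖x‖ → ‖x‖ < R → θ x = τ → fderiv ℝ θ x ≠ 0) →
        (∃ B : ℝ, ∀ x : E3, 1 < ‖x‖ → ‖x‖ < R → gradNorm g θ x ≤ B) →
        (∀ x : E3, 1 < ‖x‖ → ‖x‖ < R → θ x < q ^ 2 / 8 → ‖x‖ ≤ Real.exp 2 * (1 + 100 * C0 / q)) →
        0 ≤ Cc → Cc ≤ M → φ ≤ φ0 →
        (∀ s t : ℝ, 0 < s → s < t → t ≤ q ^ 2 / 8 →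
          UMB.BT g θ R q s t ≤ (t - s) * (Real.exp ((2 - q) * t) * (4 * Real.pi * Cc ^ (2 - q) + φ))) →
        ∃ (F : Set E3) (c : ℝ), Encloses F ∧ AreaLE g a F c ∧ c ≤ 4 * Real.pi * Cc ^ 2 + κ := by
  obtain ⟨q0, hq0, hq01, h0⟩ := area_fin hg (C0 := C0) hC0 hM hκ
  refine ⟨q0 / 2, by positivity, by linarith, fun q hq hqq => ?_⟩
  obtain ⟨φ0, hφ0, h1⟩ := h0 q hq (by linarith)
  refine ⟨φ0, hφ0, ?_⟩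
  simp only [BT_eq]
  exact h1

/-- The form with one window and additive error. -/
theorem area_add' {g : Tens} {a : ℝ} (hg : AF g a) {C0 M κ : ℝ} (hC0 : 0 ≤ C0) (hM : 0 ≤ M) (hκ : 0 < κ) :
    ∃ q0 : ℝ, 0 < q0 ∧ q0 ≤ 1 ∧ ∀ q : ℝ, 0 < q → q ≤ q0 → ∃ φ0 : ℝ, 0 < φ0 ∧
      ∀ (R T : ℝ) (θ : E3 → ℝ) (Cc φ : ℝ), LevFun θ R T → q ^ 2 / 8 < T →
        (∀ᵐ τ : ℝ, 0 < τ → τ < T → ∀ x : E3, 1 < ‖x‖ → ‖x‖ < R → θ x = τ → fderiv ℝ θ x ≠ 0) →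
        (∃ B : ℝ, ∀ x : E3, 1 < ‖x‖ → ‖x‖ < R → gradNorm g θ x ≤ B) →
        (∀ x : E3, 1 < ‖x‖ → ‖x‖ < R → θ x < q ^ 2 / 8 → ‖x‖ ≤ Real.exp 2 * (1 + 100 * C0 / q)) →
        0 ≤ Cc → Cc ≤ M → φ ≤ φ0 →
        (∀ s t : ℝ, 0 < s → s < t → t ≤ q ^ 2 / 8 →
          UMB.BT g θ R q s t ≤ (t - s) * (Real.exp ((2 - q) * t) * (4 * Real.pi * Cc ^ (2 - q))) + φ) →
        ∃ (F : Set E3) (c : ℝ), Encloses F ∧ AreaLE g a F c ∧ c ≤ 4 * Real.pi * Cc ^ 2 + κ := by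
  obtain ⟨q0, hq0, hq01, h0⟩ := area_add hg (C0 := C0) hC0 hM hκ
  refine ⟨q0 / 2, by positivity, by linarith, fun q hq hqq => ?_⟩
  obtain ⟨φ0, hφ0, h1⟩ := h0 q hq (by linarith)
  refine ⟨φ0, hφ0, ?_⟩
  intro R T θ Cc φ h hT hreg hb hrad hCc hCM hφ hF
  have hq2 : 0 < q ^ 2 := by positivity
  refine h1 R T θ Cc φ h hT hreg hb hrad hCc hCM hφ ?_
  have h2 := hF (q ^ 2 / 16) (q ^ 2 / 8) (by positivity) (by linarith) le_rfl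
  rw [BT_eq] at h2
  exact h2

/-- The form with the single window `(q²/16, q²/8)`. -/
theorem area_win {g : Tens} {a : ℝ} (hg : AF g a) {C0 M κ : ℝ} (hC0 : 0 ≤ C0) (hM : 0 ≤ M) (hκ : 0 < κ) :
    ∃ q0 : ℝ, 0 < q0 ∧ q0 ≤ 1 ∧ ∀ q : ℝ, 0 < q → q ≤ q0 → ∃ φ0 : ℝ, 0 < φ0 ∧
      ∀ (R T : ℝ) (θ : E3 → ℝ) (Cc φ : ℝ), LevFun θ R T → q ^ 2 / 8 < T →
        (∀ᵐ τ : ℝ, 0 < τ → τ < T → ∀ x : E3, 1 < ‖x‖ → ‖x‖ < R → θ x = τ → fderiv ℝ θ x ≠ 0) →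
        (∃ B : ℝ, ∀ x : E3, 1 < ‖x‖ → ‖x‖ < R → gradNorm g θ x ≤ B) →
        (∀ x : E3, 1 < ‖x‖ → ‖x‖ < R → θ x < q ^ 2 / 8 → ‖x‖ ≤ Real.exp 2 * (1 + 100 * C0 / q)) →
        0 ≤ Cc → Cc ≤ M → φ ≤ φ0 →
        UMB.BT g θ R q (q ^ 2 / 16) (q ^ 2 / 8) ≤
          (q ^ 2 / 16) * (Real.exp ((2 - q) * (q ^ 2 / 8)) * (4 * Real.pi * Cc ^ (2 - q) + φ)) →
        ∃ (F : Set E3) (c : ℝ), Encloses F ∧ AreaLE g a F c ∧ c ≤ 4 * Real.pi * Cc ^ 2 + κ := by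
  obtain ⟨q0, hq0, hq01, h0⟩ := area_add hg (C0 := C0) hC0 hM hκ
  refine ⟨q0 / 2, by positivity, by linarith, fun q hq hqq => ?_⟩
  obtain ⟨φ0, hφ0, h1⟩ := h0 q hq (by linarith)
  have hE : 0 < (q ^ 2 / 16) * Real.exp ((2 - q) * (q ^ 2 / 8)) := by positivity
  refine ⟨φ0 / ((q ^ 2 / 16) * Real.exp ((2 - q) * (q ^ 2 / 8))), by positivity, ?_⟩
  intro R T θ Cc φ h hT hreg hb hrad hCc hCM hφ hF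
  refine h1 R T θ Cc (φ * ((q ^ 2 / 16) * Real.exp ((2 - q) * (q ^ 2 / 8)))) h hT hreg hb hrad hCc hCM
    (by rwa [le_div_iff₀ hE] at hφ) ?_
  rw [BT_eq] at hF
  refine hF.trans (le_of_eq ?_)
  ring

end UMB.AREA
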