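import Mathlib

set_option autoImplicit false

/-!
# UMB block AREA: a good level, Hoelder, numbers
-/

open Filter Topology Set MeasureTheory

namespace UMB.AREA

/-- A level in `(s, t)` with a property valid almost everywhere, at which the monotone function `A` has a derivative which is
at most the mean slope (up to a positive number). -/
theorem good_time {A : ℝ → ℝ} (hA : Monotone A) {s t m : ℝ} (hst : s < t) (hm : A t - A s ≤ m * (t - s))
    {P : ℝ → Prop} (hP : ∀ᵐ τ : ℝ, P τ) :
    ∃ τ : ℝ, s < τ ∧ τ < t ∧ P τ ∧ ∃ c : ℝ, HasDerivAt A c τ ∧ c ≤ m := by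
  by_contra hcon
  push Not at hcon
  have hdiff : ∀ᵐ τ : ℝ, DifferentiableAt ℝ A τ := hA.ae_differentiableAt
  have h1 : ∀ᵐ τ : ℝ, τ ∈ Ioo s t → m < deriv A τ := by
    filter_upwards [hdiff, hP] with τ hτ hPτ hmem
    exact hcon τ hmem.1 hmem.2 hPτ _ hτ.hasDerivAt
  have hAm : MonotoneOn A (uIcc s t) := hA.monotoneOn _
  have h2 : IntervalIntegrable (deriv A) volume s t := hAm.intervalIntegrable_deriv
  have h3 := hAm.intervalIntegral_deriv_mem_uIcc
  have h4 : ∫ τ in s..t, deriv A τ ≤ A t - A s := by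
    have h5 : (0:ℝ) ≤ A t - A s := sub_nonneg.2 (hA hst.le)
    rw [uIcc_of_le h5] at h3
    exact h3.2
  have h6 : 0 ≤ ∫ τ in s..t, (deriv A τ - m) := by
    rw [intervalIntegral.integral_of_le hst.le, integral_Ioc_eq_integral_Ioo]
    apply setIntegral_nonneg_of_ae_restrict
    rw [EventuallyLE, ae_restrict_iff' measurableSet_Ioo]
    filter_upwards [h1] with τ hτ hmem
    have := hτ hmem
    simp only [Pi.zero_apply]
    linarith
  have h7 : ∫ τ in s..t, (deriv A τ - m) = (∫ τ in s..t, deriv A τ) - m * (t - s) := by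
    rw [intervalIntegral.integral_sub h2 intervalIntegrable_const, intervalIntegral.integral_const, smul_eq_mul,
      mul_comm m]
  have h8 : ∫ τ in s..t, (deriv A τ - m) = 0 := by
    apply le_antisymm _ h6
    rw [h7]
    linarith
  have h9 : (fun τ => deriv A τ - m) =ᵐ[volume.restrict (Ioo s t)] 0 := by
    rw [intervalIntegral.integral_of_le hst.le, integral_Ioc_eq_integral_Ioo] at h8
    apply (setIntegral_eq_zero_iff_of_nonneg_ae _ _).1 h8
    · rw [EventuallyLE, ae_restrict_iff' measurableSet_Ioo]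
      filter_upwards [h1] with τ hτ hmem
      have := hτ hmem
      simp only [Pi.zero_apply]
      linarith
    · have h10 : IntervalIntegrable (fun τ => deriv A τ - m) volume s t := h2.sub intervalIntegrable_const
      rw [intervalIntegrable_iff_integrableOn_Ioo_of_le hst.le] at h10
      exact h10
  rw [EventuallyEq, ae_restrict_iff' measurableSet_Ioo] at h9
  have h11 : ∀ᵐ τ : ℝ, τ ∉ Ioo s t := by
    filter_upwards [h9, h1] with τ h9τ h1τ hmem
    have h12 := h9τ hmem
    have h13 := h1τ hmem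
    simp only [Pi.zero_apply] at h12
    linarith
  have h14 : volume (Ioo s t) = 0 := by
    rw [ae_iff] at h11
    have e : {τ : ℝ | ¬ τ ∉ Ioo s t} = Ioo s t := by
      ext τ
      exact not_not
    rw [e] at h11
    exact h11
  rw [Real.volume_Ioo, ENNReal.ofReal_eq_zero] at h14
  linarith

/-- Hoelder for a weight. -/
theorem holder_w {α : Type*} [MeasurableSpace α] {μ : Measure α} {f w : α → ℝ} {q : ℝ} (hq : 0 < q)
    (hf : ∀ᵐ x ∂μ, 0 ≤ f x) (hw : ∀ᵐ x ∂μ, 0 ≤ w x) (hfm : AEStronglyMeasurable f μ) (hwm : AEStronglyMeasurable w μ)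
    (h1 : Integrable (fun x => f x ^ (1 + q) * w x) μ) (h2 : Integrable w μ) :
    ∫ x, f x * w x ∂μ ≤ (∫ x, f x ^ (1 + q) * w x ∂μ) ^ (1 / (1 + q)) * (∫ x, w x ∂μ) ^ (q / (1 + q)) := by
  have hq1 : (0:ℝ) < 1 + q := by linarith
  have hpq : Real.HolderConjugate (1 + q) ((1 + q) / q) := by
    rw [Real.holderConjugate_iff]
    refine ⟨by linarith, ?_⟩
    field_simp
  have hF : MemLp (fun x => f x * w x ^ (1 / (1 + q))) (ENNReal.ofReal (1 + q)) μ := by
    have hm : AEStronglyMeasurable (fun x => f x * w x ^ (1 / (1 + q))) μ :=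
      hfm.mul ((Real.continuous_rpow_const (by positivity)).comp_aestronglyMeasurable hwm)
    rw [← integrable_norm_rpow_iff hm (by simpa using hq1) ENNReal.ofReal_ne_top, ENNReal.toReal_ofReal hq1.le]
    apply h1.congr
    filter_upwards [hf, hw] with x hfx hwx
    rw [Real.norm_of_nonneg (mul_nonneg hfx (Real.rpow_nonneg hwx _)), Real.mul_rpow hfx (Real.rpow_nonneg hwx _),
      ← Real.rpow_mul hwx]
    rw [one_div, inv_mul_cancel₀ hq1.ne', Real.rpow_one]
  have hG : MemLp (fun x => w x ^ (q / (1 + q))) (ENNReal.ofReal ((1 + q) / q)) μ := by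
    have hm : AEStronglyMeasurable (fun x => w x ^ (q / (1 + q))) μ :=
      (Real.continuous_rpow_const (by positivity)).comp_aestronglyMeasurable hwm
    have hq2 : (0:ℝ) < (1 + q) / q := by positivity
    rw [← integrable_norm_rpow_iff hm (by simpa using hq2) ENNReal.ofReal_ne_top, ENNReal.toReal_ofReal hq2.le]
    apply h2.congr
    filter_upwards [hw] with x hwx
    rw [Real.norm_of_nonneg (Real.rpow_nonneg hwx _), ← Real.rpow_mul hwx]
    rw [show q / (1 + q) * ((1 + q) / q) = 1 by field_simp, Real.rpow_one]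
  have hmain := integral_mul_le_Lp_mul_Lq_of_nonneg hpq (μ := μ) (f := fun x => f x * w x ^ (1 / (1 + q)))
    (g := fun x => w x ^ (q / (1 + q))) (by
      filter_upwards [hf, hw] with x hfx hwx
      exact mul_nonneg hfx (Real.rpow_nonneg hwx _)) (by
      filter_upwards [hw] with x hwx
      exact Real.rpow_nonneg hwx _) hF hG
  have e1 : ∫ x, f x * w x ^ (1 / (1 + q)) * w x ^ (q / (1 + q)) ∂μ = ∫ x, f x * w x ∂μ := by
    apply integral_congr_ae
    filter_upwards [hf, hw] with x hfx hwx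
    show f x * w x ^ (1 / (1 + q)) * w x ^ (q / (1 + q)) = f x * w x
    rw [mul_assoc, ← Real.rpow_add_of_nonneg hwx (by positivity) (by positivity)]
    rw [show 1 / (1 + q) + q / (1 + q) = 1 by field_simp, Real.rpow_one]
  have e2 : ∫ x, (f x * w x ^ (1 / (1 + q))) ^ (1 + q) ∂μ = ∫ x, f x ^ (1 + q) * w x ∂μ := by
    apply integral_congr_ae
    filter_upwards [hf, hw] with x hfx hwx
    show (f x * w x ^ (1 / (1 + q))) ^ (1 + q) = f x ^ (1 + q) * w x
    rw [Real.mul_rpow hfx (Real.rpow_nonneg hwx _), ← Real.rpow_mul hwx, one_div, inv_mul_cancel₀ hq1.ne', Real.rpow_one]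
  have e3 : ∫ x, (w x ^ (q / (1 + q))) ^ ((1 + q) / q) ∂μ = ∫ x, w x ∂μ := by
    apply integral_congr_ae
    filter_upwards [hw] with x hwx
    show (w x ^ (q / (1 + q))) ^ ((1 + q) / q) = w x
    rw [← Real.rpow_mul hwx, show q / (1 + q) * ((1 + q) / q) = 1 by field_simp, Real.rpow_one]
  rw [e1, e2, e3] at hmain
  rw [show 1 / ((1 + q) / q) = q / (1 + q) by rw [one_div_div]] at hmain
  exact hmain

end UMB.AREA
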