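import Pool.Agent.Lib.UMB.SS.Area2
import Pool.Agent.Lib.UMB.AREA.Time

set_option autoImplicit false

/-!
# UMB block AREA: integrals over bands `{s ≤ θ < t}`
-/

open Filter Topology Set MeasureTheory
open scoped ContDiff

namespace UMB.AREA

open Pool.Agent.Lib.PenroseSph (E3 Tens pd gradNorm)

/-- The open annulus. -/
def annO (R : ℝ) : Set E3 := {x : E3 | 1 < ‖x‖ ∧ ‖x‖ < R}

/-- The part `s ≤ θ < t` of the open annulus. -/
def bandT (θ : E3 → ℝ) (R s t : ℝ) : Set E3 := {x : E3 | 1 < ‖x‖ ∧ ‖x‖ < R ∧ s ≤ θ x ∧ θ x < t}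

/-- `∫_{s ≤ θ < t} |∇θ|^(1+q) dV`. -/
noncomputable def BT (g : Tens) (θ : E3 → ℝ) (R q s t : ℝ) : ℝ :=
  ∫ x in bandT θ R s t, gradNorm g θ x ^ (1 + q) * Real.sqrt (g x).det

variable {g : Tens} {a R T s t : ℝ} {θ : E3 → ℝ}

theorem bandT_eq : bandT θ R s t = lowT θ R t \ lowT θ R s := by
  ext x
  constructor
  · rintro ⟨h1, h2, h3, h4⟩
    exact ⟨⟨h1, h2, h4⟩, fun h5 => absurd h5.2.2 (not_lt.2 h3)⟩
  · rintro ⟨⟨h1, h2, h3⟩, h4⟩
    exact ⟨h1, h2, not_lt.1 fun h5 => h4 ⟨h1, h2, h5⟩, h3⟩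

theorem meas_lowT (h : LevFun θ R T) (t : ℝ) : MeasurableSet (lowT θ R t) := (h.isOpen_lowT t).measurableSet

theorem meas_bandT (h : LevFun θ R T) (s t : ℝ) : MeasurableSet (bandT θ R s t) := by
  rw [bandT_eq]
  exact (meas_lowT h t).diff (meas_lowT h s)

theorem bandT_sub : bandT θ R s t ⊆ annO R := fun _ hx => ⟨hx.1, hx.2.1⟩

theorem lowT_sub' : lowT θ R t ⊆ annO R := fun _ hx => ⟨hx.1, hx.2.1⟩

theorem cont_det (hg : SmM g a) (ha : a < 1) : ContinuousOn (fun x => Real.sqrt (g x).det) {x : E3 | 1 ≤ ‖x‖} := by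
  intro x hx
  have hxa : a < ‖x‖ := ha.trans_le hx
  exact ((s_det_at (fun i j => hg.sm.at hxa i j)).sqrt (hg.det_pos hxa).ne').continuousAt.continuousWithinAt

theorem cont_grad (hg : SmM g a) (ha : a < 1) (h : LevFun θ R T) : ContinuousOn (gradNorm g θ) (annO R) := by
  intro x hx
  have hxa : a < ‖x‖ := ha.trans hx.1
  have h1 : ContDiffAt ℝ ∞ (fun y => ∑ i, ∑ j, (g y)⁻¹ i j * pd i θ y * pd j θ y) x :=
    ContDiffAt.sum fun i _ => ContDiffAt.sum fun j _ =>
      ((hg.inv hxa i j).mul (contDiffAt_pd (h.contAt hx) i)).mul (contDiffAt_pd (h.contAt hx) j)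
  exact (h1.continuousAt.sqrt).continuousWithinAt

theorem meas_annO : MeasurableSet (annO R) := (isOpen_annO R).measurableSet

theorem vol_annO : volume (annO R) < ⊤ := by
  refine lt_of_le_of_lt (measure_mono ?_) (measure_closedBall_lt_top (μ := (volume : Measure E3)) (x := 0) (r := R))
  intro x hx
  rw [mem_closedBall_zero_iff]
  exact hx.2.le

/-- `√det g` is bounded on the annulus. -/
theorem det_bdd (hg : SmM g a) (ha : a < 1) (R : ℝ) : ∃ L : ℝ, ∀ x ∈ annO R, Real.sqrt (g x).det ≤ L := by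
  have hK : IsCompact {x : E3 | 1 ≤ ‖x‖ ∧ ‖x‖ ≤ R} := by
    apply (isCompact_closedBall (0 : E3) R).of_isClosed_subset (isClosed_annC R)
    intro x hx
    rw [mem_closedBall_zero_iff]
    exact hx.2
  obtain ⟨L, hL⟩ := (hK.image_of_continuousOn ((cont_det hg ha).mono fun x hx => hx.1)).bddAbove
  exact ⟨L, fun x hx => hL ⟨x, ⟨hx.1.le, hx.2.le⟩, rfl⟩⟩

theorem int_of_bdd {f : E3 → ℝ} (hf : ContinuousOn f (annO R)) {B : ℝ} (hB : ∀ x ∈ annO R, |f x| ≤ B) :
    IntegrableOn f (annO R) := by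
  refine ⟨hf.aestronglyMeasurable meas_annO, ?_⟩
  refine HasFiniteIntegral.restrict_of_bounded B vol_annO ?_
  rw [ae_restrict_iff' meas_annO]
  exact Eventually.of_forall fun x hx => hB x hx

theorem int_w (hg : SmM g a) (ha : a < 1) (R : ℝ) : IntegrableOn (fun x => Real.sqrt (g x).det) (annO R) := by
  obtain ⟨L, hL⟩ := det_bdd hg ha R
  refine int_of_bdd ((cont_det hg ha).mono fun x hx => hx.1.le) (B := L) ?_
  intro x hx
  rw [abs_of_nonneg (Real.sqrt_nonneg _)]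
  exact hL x hx

theorem gradNorm_nonneg' (x : E3) : 0 ≤ gradNorm g θ x := Real.sqrt_nonneg _

theorem int_pow (hg : SmM g a) (ha : a < 1) (h : LevFun θ R T) (hb : ∃ B, ∀ x ∈ annO R, gradNorm g θ x ≤ B) {r : ℝ}
    (hr : 0 ≤ r) : IntegrableOn (fun x => gradNorm g θ x ^ r * Real.sqrt (g x).det) (annO R) := by
  obtain ⟨L, hL⟩ := det_bdd hg ha R
  obtain ⟨B, hB⟩ := hb
  refine int_of_bdd (((cont_grad hg ha h).rpow_const fun x _ => Or.inr hr).mul
    ((cont_det hg ha).mono fun x hx => hx.1.le)) (B := B ^ r * L) ?_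
  intro x hx
  rw [abs_of_nonneg (mul_nonneg (Real.rpow_nonneg (gradNorm_nonneg' x) _) (Real.sqrt_nonneg _))]
  exact mul_le_mul (Real.rpow_le_rpow (gradNorm_nonneg' x) (hB x hx) hr) (hL x hx) (Real.sqrt_nonneg _)
    (Real.rpow_nonneg ((gradNorm_nonneg' x).trans (hB x hx)) _)

theorem int_one (hg : SmM g a) (ha : a < 1) (h : LevFun θ R T) (hb : ∃ B, ∀ x ∈ annO R, gradNorm g θ x ≤ B) :
    IntegrableOn (fun x => gradNorm g θ x * Real.sqrt (g x).det) (annO R) := by
  have := int_pow hg ha h hb (zero_le_one)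
  simpa only [Real.rpow_one] using this

theorem AT_mono (hg : SmM g a) (ha : a < 1) (h : LevFun θ R T) (hb : ∃ B, ∀ x ∈ annO R, gradNorm g θ x ≤ B) :
    Monotone (AT g θ R) := by
  intro s t hst
  unfold AT
  apply setIntegral_mono_set ((int_one hg ha h hb).mono_set lowT_sub')
  · exact Eventually.of_forall fun x => mul_nonneg (Real.sqrt_nonneg _) (Real.sqrt_nonneg _)
  · exact (lowT_mono hst).eventuallyLE

theorem AT_sub (hg : SmM g a) (ha : a < 1) (h : LevFun θ R T) (hb : ∃ B, ∀ x ∈ annO R, gradNorm g θ x ≤ B)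
    (hst : s ≤ t) : AT g θ R t - AT g θ R s = ∫ x in bandT θ R s t, gradNorm g θ x * Real.sqrt (g x).det := by
  rw [bandT_eq]
  unfold AT
  rw [setIntegral_sdiff (meas_lowT h s) ((int_one hg ha h hb).mono_set lowT_sub') (lowT_mono hst)]

theorem BT_nonneg {q : ℝ} : 0 ≤ BT g θ R q s t :=
  integral_nonneg fun x => mul_nonneg (Real.rpow_nonneg (Real.sqrt_nonneg _) _) (Real.sqrt_nonneg _)

/-- Hoelder on the band. -/
theorem band_holder (hg : SmM g a) (ha : a < 1) (h : LevFun θ R T) (hb : ∃ B, ∀ x ∈ annO R, gradNorm g θ x ≤ B)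
    {q V : ℝ} (hq : 0 < q) (hst : s ≤ t) (hV : ∫ x in lowT θ R t, Real.sqrt (g x).det ≤ V) :
    AT g θ R t - AT g θ R s ≤ BT g θ R q s t ^ (1 / (1 + q)) * V ^ (q / (1 + q)) := by
  rw [AT_sub hg ha h hb hst]
  have hm := meas_bandT h s t
  have hsub : bandT θ R s t ⊆ annO R := bandT_sub
  have h1 := holder_w (μ := volume.restrict (bandT θ R s t)) (f := gradNorm g θ) (w := fun x => Real.sqrt (g x).det) hq
    (Eventually.of_forall fun x => gradNorm_nonneg' x) (Eventually.of_forall fun x => Real.sqrt_nonneg _)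
    ((cont_grad hg ha h).mono hsub |>.aestronglyMeasurable hm)
    (((cont_det hg ha).mono fun x hx => (hsub hx).1.le).aestronglyMeasurable hm)
    ((int_pow hg ha h hb (by linarith)).mono_set hsub) ((int_w hg ha R).mono_set hsub)
  refine h1.trans ?_
  apply mul_le_mul_of_nonneg_left _ (Real.rpow_nonneg BT_nonneg _)
  apply Real.rpow_le_rpow (integral_nonneg fun _ => Real.sqrt_nonneg _) _ (by positivity)
  refine le_trans ?_ hV
  apply setIntegral_mono_set ((int_w hg ha R).mono_set lowT_sub')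
  · exact Eventually.of_forall fun x => Real.sqrt_nonneg _
  · rw [bandT_eq]
    exact (HasSubset.Subset.eventuallyLE sdiff_subset)

end UMB.AREA
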