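import Mathlib

set_option autoImplicit false

/-!
# UMB block AREA: the constants tend to one
-/

open Filter Topology Set

namespace UMB.AREA

/-- `(C q^(-5))^(q/(1+q)) exp((2-q) q²/8)^(1/(1+q)) → 1`. -/
theorem tendsto_fac {C : ℝ} (hC : 0 < C) :
    Tendsto (fun q : ℝ => ((C / q ^ 3) / (q ^ 2 / 8 - q ^ 2 / 16)) ^ (q / (1 + q)) *
      (Real.exp ((2 - q) * (q ^ 2 / 8))) ^ (1 / (1 + q))) (𝓝[>] 0) (𝓝 1) := by
  have h0 : Tendsto (fun q : ℝ => q / (1 + q) * Real.log (16 * C) - 5 * (1 / (1 + q)) * (Real.log q * q) +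
      (2 - q) * (q ^ 2 / 8) * (1 / (1 + q))) (𝓝[>] 0) (𝓝 (0 / (1 + 0) * Real.log (16 * C) - 5 * (1 / (1 + 0)) * 0 +
      (2 - 0) * (0 ^ 2 / 8) * (1 / (1 + 0)))) := by
    have hq : Tendsto (fun q : ℝ => q) (𝓝[>] 0) (𝓝 0) := tendsto_nhdsWithin_of_tendsto_nhds tendsto_id
    have hq1 : Tendsto (fun q : ℝ => 1 + q) (𝓝[>] 0) (𝓝 (1 + 0)) := tendsto_const_nhds.add hq
    have hne : (1:ℝ) + 0 ≠ 0 := by norm_num
    have hl : Tendsto (fun q : ℝ => Real.log q * q) (𝓝[>] 0) (𝓝 0) := by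
      have := tendsto_log_mul_rpow_nhdsGT_zero one_pos
      simpa only [Real.rpow_one] using this
    refine Tendsto.add (Tendsto.sub ?_ ?_) ?_
    · exact (hq.div hq1 hne).mul_const _
    · exact ((tendsto_const_nhds.div hq1 hne).const_mul 5).mul hl
    · exact ((tendsto_const_nhds.sub hq).mul ((hq.pow 2).div_const 8)).mul (tendsto_const_nhds.div hq1 hne)
  have h1 : Tendsto (fun q : ℝ => Real.exp (q / (1 + q) * Real.log (16 * C) - 5 * (1 / (1 + q)) * (Real.log q * q) +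
      (2 - q) * (q ^ 2 / 8) * (1 / (1 + q)))) (𝓝[>] 0) (𝓝 1) := by
    have h2 := (Real.continuous_exp.tendsto _).comp h0
    have e : Real.exp (0 / (1 + 0) * Real.log (16 * C) - 5 * (1 / (1 + 0)) * 0 +
      (2 - 0) * (0 ^ 2 / 8) * (1 / (1 + 0))) = 1 := by simp
    rw [e] at h2
    exact h2
  refine h1.congr' ?_
  filter_upwards [self_mem_nhdsWithin] with q hq
  have hq0 : (0:ℝ) < q := hq
  have e1 : (C / q ^ 3) / (q ^ 2 / 8 - q ^ 2 / 16) = 16 * C / q ^ 5 := by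
    field_simp
    ring
  rw [e1, Real.rpow_def_of_pos (by positivity), Real.rpow_def_of_pos (Real.exp_pos _), Real.log_exp, ← Real.exp_add]
  congr 1
  rw [Real.log_div (by positivity) (by positivity), Real.log_pow]
  push_cast
  field_simp

/-- The power `(4π c^(2-q))^(1/(1+q))` is close to `4π c²`, uniformly for `0 ≤ c ≤ M`. -/
theorem unif_pow {M : ℝ} {ε : ℝ} (hε : 0 < ε) : ∃ δ : ℝ, 0 < δ ∧ δ ≤ 1 / 2 ∧ ∀ q : ℝ, 0 < q → q < δ →
    ∀ c : ℝ, 0 ≤ c → c ≤ M → |(4 * Real.pi * c ^ (2 - q)) ^ (1 / (1 + q)) - 4 * Real.pi * c ^ 2| < ε := by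
  have hK : IsCompact ((Icc (0:ℝ) (1 / 2)) ×ˢ (Icc (0:ℝ) M)) := isCompact_Icc.prod isCompact_Icc
  have hcont : ContinuousOn (fun z : ℝ × ℝ => (4 * Real.pi * z.2 ^ (2 - z.1)) ^ (1 / (1 + z.1)))
      ((Icc (0:ℝ) (1 / 2)) ×ˢ (Icc (0:ℝ) M)) := by
    rintro ⟨q, c⟩ ⟨⟨hq0, hq1⟩, hc0, hc1⟩
    simp only at hq0 hq1 hc0 hc1
    apply ContinuousAt.continuousWithinAt
    have h1 : ContinuousAt (fun z : ℝ × ℝ => 4 * Real.pi * z.2 ^ (2 - z.1)) (q, c) := by
      apply continuousAt_const.mul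
      apply continuousAt_snd.rpow (continuousAt_const.sub continuousAt_fst)
      right
      exact (show (0:ℝ) < 2 - q by linarith)
    apply h1.rpow
    · apply continuousAt_const.div (continuousAt_const.add continuousAt_fst)
      exact (show (0:ℝ) < 1 + q by linarith).ne'
    · right
      exact (show (0:ℝ) < 1 / (1 + q) by positivity)
  have hu := hK.uniformContinuousOn_of_continuous hcont
  rw [Metric.uniformContinuousOn_iff] at hu
  obtain ⟨δ, hδ, hδ2⟩ := hu ε hε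
  refine ⟨min δ (1 / 2), lt_min hδ (by norm_num), min_le_right _ _, ?_⟩
  intro q hq0 hq1 c hc0 hc1
  have hq2 : q < δ := hq1.trans_le (min_le_left _ _)
  have hq3 : q < 1 / 2 := hq1.trans_le (min_le_right _ _)
  have h := hδ2 (q, c) ⟨⟨hq0.le, hq3.le⟩, hc0, hc1⟩ (0, c) ⟨⟨le_rfl, by norm_num⟩, hc0, hc1⟩ (by
    rw [Prod.dist_eq]
    simp only [dist_self, Real.dist_eq, sub_zero]
    rw [abs_of_pos hq0]
    simpa using ⟨hq2, hδ⟩)
  simp only [sub_zero, add_zero, div_one, Real.rpow_one, Real.dist_eq] at h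
  rw [Real.rpow_two] at h
  exact h

/-- The numbers. -/
theorem num {M κ C : ℝ} (hM : 0 ≤ M) (hκ : 0 < κ) (hC : 0 < C) : ∃ q0 : ℝ, 0 < q0 ∧ q0 ≤ 1 / 2 ∧
    ∀ q : ℝ, 0 < q → q < q0 → ∃ φ0 : ℝ, 0 < φ0 ∧ ∀ c : ℝ, 0 ≤ c → c ≤ M →
      ((C / q ^ 3) / (q ^ 2 / 8 - q ^ 2 / 16)) ^ (q / (1 + q)) *
        (Real.exp ((2 - q) * (q ^ 2 / 8)) * (4 * Real.pi * c ^ (2 - q) + φ0)) ^ (1 / (1 + q)) ≤
        4 * Real.pi * c ^ 2 + κ := by
  set ε : ℝ := min (κ / 4) 1 with hε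
  have hε0 : 0 < ε := lt_min (by positivity) one_pos
  obtain ⟨δ, hδ0, hδ1, hδ⟩ := unif_pow (M := M) hε0
  set G : ℝ := 4 * Real.pi * M ^ 2 + 1 with hG
  have hG0 : 0 < G := by positivity
  set ρ : ℝ := κ / (4 * G) with hρ
  have hρ0 : 0 < ρ := by positivity
  have h1 := (tendsto_fac hC).eventually (gt_mem_nhds (show (1:ℝ) < 1 + ρ by linarith))
  rw [eventually_nhdsWithin_iff, Metric.eventually_nhds_iff] at h1
  obtain ⟨δ2, hδ2, h2⟩ := h1
  refine ⟨min δ δ2, lt_min hδ0 hδ2, (min_le_left _ _).trans hδ1, ?_⟩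
  intro q hq hqq
  have hq1 : q < δ := hqq.trans_le (min_le_left _ _)
  have hq2 : q < δ2 := hqq.trans_le (min_le_right _ _)
  have h3 := h2 (y := q) (by rw [Real.dist_eq, sub_zero, abs_of_pos hq]; exact hq2) hq
  set A : ℝ := ((C / q ^ 3) / (q ^ 2 / 8 - q ^ 2 / 16)) ^ (q / (1 + q)) with hA
  set B : ℝ := (Real.exp ((2 - q) * (q ^ 2 / 8))) ^ (1 / (1 + q)) with hB
  have hq3 : (0:ℝ) < 1 + q := by linarith
  have hbase : 0 < (C / q ^ 3) / (q ^ 2 / 8 - q ^ 2 / 16) := by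
    have : q ^ 2 / 8 - q ^ 2 / 16 = q ^ 2 / 16 := by ring
    rw [this]
    positivity
  have hA0 : 0 < A := Real.rpow_pos_of_pos hbase _
  have hB0 : 0 < B := Real.rpow_pos_of_pos (Real.exp_pos _) _
  have hAB : 0 < A * B := mul_pos hA0 hB0
  refine ⟨(κ / (4 * (A * B))) ^ (1 + q), Real.rpow_pos_of_pos (by positivity) _, ?_⟩
  intro c hc0 hcM
  have h4 := hδ q hq hq1 c hc0 hcM
  have h5 : (4 * Real.pi * c ^ (2 - q)) ^ (1 / (1 + q)) ≤ 4 * Real.pi * c ^ 2 + ε := by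
    have := (abs_lt.1 h4).2
    linarith
  have h6 : (4 * Real.pi * c ^ (2 - q) + (κ / (4 * (A * B))) ^ (1 + q)) ^ (1 / (1 + q)) ≤
      (4 * Real.pi * c ^ (2 - q)) ^ (1 / (1 + q)) + κ / (4 * (A * B)) := by
    have h7 := Real.rpow_add_le_add_rpow (a := 4 * Real.pi * c ^ (2 - q)) (b := (κ / (4 * (A * B))) ^ (1 + q))
      (p := 1 / (1 + q)) (by positivity) (by positivity) (by positivity) (by
        rw [div_le_one hq3]; linarith)
    refine h7.trans (le_of_eq ?_)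
    congr 1
    rw [← Real.rpow_mul (by positivity), mul_one_div_cancel hq3.ne', Real.rpow_one]
  have h8 : 4 * Real.pi * c ^ 2 + ε ≤ G := by
    have h9 : c ^ 2 ≤ M ^ 2 := pow_le_pow_left₀ hc0 hcM 2
    have h10 : ε ≤ 1 := min_le_right _ _
    have h11 : 4 * Real.pi * c ^ 2 ≤ 4 * Real.pi * M ^ 2 := mul_le_mul_of_nonneg_left h9 (by positivity)
    linarith
  rw [Real.mul_rpow (Real.exp_pos _).le (by positivity)]
  change A * (B * _) ≤ _
  calc A * (B * (4 * Real.pi * c ^ (2 - q) + (κ / (4 * (A * B))) ^ (1 + q)) ^ (1 / (1 + q)))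
      ≤ A * (B * (4 * Real.pi * c ^ 2 + ε + κ / (4 * (A * B)))) := by
        apply mul_le_mul_of_nonneg_left _ hA0.le
        apply mul_le_mul_of_nonneg_left _ hB0.le
        linarith
    _ = (A * B) * (4 * Real.pi * c ^ 2 + ε) + κ / 4 := by
        have : (A * B) * (κ / (4 * (A * B))) = κ / 4 := by field_simp
        rw [← this]
        ring
    _ ≤ (1 + ρ) * (4 * Real.pi * c ^ 2 + ε) + κ / 4 := by
        have h12 : A * B ≤ 1 + ρ := h3.le
        have h13 : 0 ≤ 4 * Real.pi * c ^ 2 + ε := by positivity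
        nlinarith
    _ ≤ 4 * Real.pi * c ^ 2 + κ := by
        have h14 : ρ * (4 * Real.pi * c ^ 2 + ε) ≤ κ / 4 := by
          calc ρ * (4 * Real.pi * c ^ 2 + ε) ≤ ρ * G := mul_le_mul_of_nonneg_left h8 hρ0.le
            _ = κ / 4 := by rw [hρ]; field_simp
        have h15 : ε ≤ κ / 4 := min_le_left _ _
        nlinarith

end UMB.AREA
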