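import Pool.Agent.Lib.UMB.AREA.Band
import Pool.Agent.Lib.UMB.AREA.Num

set_option autoImplicit false

/-!
# UMB block AREA: from the flux bound on the window `(0, q²/8)` to a surface of small area
-/

open Filter Topology Set MeasureTheory
open scoped ContDiff

namespace UMB.AREA

open Pool.Agent.Lib.PenroseSph (E3 Tens pd gradNorm)

variable {g : Tens} {a : ℝ}

theorem AF.toSmM (hg : AF g a) : SmM g a := ⟨hg.smooth, hg.symm, hg.pos⟩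

/-- `√det g` is bounded outside the unit ball. -/
theorem sqrt_det_le (hg : AF g a) : ∃ L : ℝ, 0 < L ∧ ∀ x : E3, 1 ≤ ‖x‖ → Real.sqrt (g x).det ≤ L := by
  obtain ⟨C, hC⟩ := hg.decay
  set B : ℝ := 1 + |C| with hB
  have hB0 : 0 < B := by positivity
  have hent : ∀ x : E3, 1 ≤ ‖x‖ → ∀ i j, |g x i j| ≤ B := by
    intro x hx i j
    have h1 := (hC x hx i j 0).1
    have h2 : C / ‖x‖ ≤ |C| := by
      rw [div_le_iff₀ (by linarith)]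
      nlinarith [le_abs_self C, abs_nonneg C]
    have h3 : |(1 : Matrix (Fin 3) (Fin 3) ℝ) i j| ≤ 1 := by
      by_cases hij : i = j
      · subst hij; simp
      · rw [Matrix.one_apply_ne hij]; simp
    calc |g x i j| = |(g x i j - (1 : Matrix (Fin 3) (Fin 3) ℝ) i j) + (1 : Matrix (Fin 3) (Fin 3) ℝ) i j| := by ring_nf
      _ ≤ |g x i j - (1 : Matrix (Fin 3) (Fin 3) ℝ) i j| + |(1 : Matrix (Fin 3) (Fin 3) ℝ) i j| := abs_add_le _ _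
      _ ≤ B := by rw [hB]; linarith
  refine ⟨Real.sqrt (6 * B ^ 3), Real.sqrt_pos.2 (by positivity), ?_⟩
  intro x hx
  apply Real.sqrt_le_sqrt
  have h3 : ∀ a b c a' b' c' : Fin 3, |g x a a' * g x b b' * g x c c'| ≤ B ^ 3 := by
    intro a b c a' b' c'
    rw [abs_mul, abs_mul]
    calc |g x a a'| * |g x b b'| * |g x c c'| ≤ B * B * B :=
          mul_le_mul (mul_le_mul (hent x hx _ _) (hent x hx _ _) (abs_nonneg _) hB0.le) (hent x hx _ _)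
            (abs_nonneg _) (by positivity)
      _ = B ^ 3 := by ring
  rw [Matrix.det_fin_three]
  have := h3 0 1 2 0 1 2
  have := h3 0 1 2 0 2 1
  have := h3 0 1 2 1 0 2
  have := h3 0 1 2 1 2 0
  have := h3 0 1 2 2 0 1
  have := h3 0 1 2 2 1 0
  have e : ∀ z : ℝ, |z| ≤ B ^ 3 → z ≤ B ^ 3 ∧ -z ≤ B ^ 3 := fun z hz => ⟨(le_abs_self z).trans hz, (neg_le_abs z).trans hz⟩
  have h4 := (e _ (h3 0 1 2 0 1 2)).1
  have h5 := (e _ (h3 0 1 2 0 2 1)).2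
  have h6 := (e _ (h3 0 1 2 1 0 2)).2
  have h7 := (e _ (h3 0 1 2 1 2 0)).1
  have h8 := (e _ (h3 0 1 2 2 0 1)).1
  have h9 := (e _ (h3 0 1 2 2 1 0)).2
  linarith

theorem AreaLE.mono {F : Set E3} {c c' : ℝ} (h : AreaLE g a F c) (hc : c ≤ c') : AreaLE g a F c' :=
  fun X h1 h2 h3 h4 => (h X h1 h2 h3 h4).trans hc

/-- The area step on a window. -/
theorem area_step {R T s t q Φ V : ℝ} {θ : E3 → ℝ} (h : LevFun θ R T) (hg : SmM g a) (ha : a < 1) (hq : 0 < q)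
    (hs : 0 < s) (hst : s < t) (htT : t < T)
    (hreg : ∀ᵐ τ : ℝ, 0 < τ → τ < T → ∀ x : E3, 1 < ‖x‖ → ‖x‖ < R → θ x = τ → fderiv ℝ θ x ≠ 0)
    (hb : ∃ B, ∀ x ∈ annO R, gradNorm g θ x ≤ B) (hΦ : 0 ≤ Φ)
    (hF : BT g θ R q s t ≤ (t - s) * Φ) (hV : ∫ x in lowT θ R t, Real.sqrt (g x).det ≤ V) :
    ∃ τ, s < τ ∧ τ < t ∧ Encloses (FT θ R τ) ∧
      AreaLE g a (FT θ R τ) ((V / (t - s)) ^ (q / (1 + q)) * Φ ^ (1 / (1 + q))) := by
  have hts : 0 < t - s := sub_pos.2 hst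
  have hq1 : 0 < 1 + q := by linarith
  have hV0 : 0 ≤ V := le_trans (integral_nonneg fun _ => Real.sqrt_nonneg _) hV
  have h1 := band_holder hg ha h hb hq hst.le hV
  have h2 : AT g θ R t - AT g θ R s ≤ (V / (t - s)) ^ (q / (1 + q)) * Φ ^ (1 / (1 + q)) * (t - s) := by
    refine h1.trans ?_
    have h3 : BT g θ R q s t ^ (1 / (1 + q)) ≤ ((t - s) * Φ) ^ (1 / (1 + q)) :=
      Real.rpow_le_rpow BT_nonneg hF (by positivity)
    refine (mul_le_mul_of_nonneg_right h3 (Real.rpow_nonneg hV0 _)).trans (le_of_eq ?_)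
    rw [Real.mul_rpow hts.le hΦ, Real.div_rpow hV0 hts.le]
    have h4 : (t - s) ^ (1 / (1 + q)) * (t - s) ^ (q / (1 + q)) = t - s := by
      rw [← Real.rpow_add hts, show 1 / (1 + q) + q / (1 + q) = 1 by field_simp, Real.rpow_one]
    have h5 : (0:ℝ) < (t - s) ^ (q / (1 + q)) := Real.rpow_pos_of_pos hts _
    rw [div_mul_eq_mul_div, div_mul_eq_mul_div, eq_div_iff h5.ne']
    calc (t - s) ^ (1 / (1 + q)) * Φ ^ (1 / (1 + q)) * V ^ (q / (1 + q)) * (t - s) ^ (q / (1 + q))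
        = ((t - s) ^ (1 / (1 + q)) * (t - s) ^ (q / (1 + q))) * (V ^ (q / (1 + q)) * Φ ^ (1 / (1 + q))) := by ring
      _ = V ^ (q / (1 + q)) * Φ ^ (1 / (1 + q)) * (t - s) := by rw [h4]; ring
  obtain ⟨τ, hτ1, hτ2, hτ3, c, hc1, hc2⟩ := good_time (AT_mono hg ha h hb) hst h2 hreg
  have hτ0 : 0 < τ := hs.trans hτ1
  have hτT : τ < T := hτ2.trans htT
  refine ⟨τ, hτ1, hτ2, h.encloses hτ0 hτT (hτ3 hτ0 hτT), ?_⟩
  exact AreaLE.mono (h.areaLE hg ha hτ0 hτT ((int_one hg ha h hb).mono_set lowT_sub') hc1) hc2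

/-- BLOCK AREA, one window and additive error. -/
theorem area_add (hg : AF g a) {C0 M κ : ℝ} (hC0 : 0 ≤ C0) (hM : 0 ≤ M) (hκ : 0 < κ) :
    ∃ q0 : ℝ, 0 < q0 ∧ q0 ≤ 1 / 2 ∧ ∀ q : ℝ, 0 < q → q < q0 → ∃ φ0 : ℝ, 0 < φ0 ∧
      ∀ (R T : ℝ) (θ : E3 → ℝ) (Cc φ : ℝ), LevFun θ R T → q ^ 2 / 8 < T →
        (∀ᵐ τ : ℝ, 0 < τ → τ < T → ∀ x : E3, 1 < ‖x‖ → ‖x‖ < R → θ x = τ → fderiv ℝ θ x ≠ 0) →
        (∃ B : ℝ, ∀ x : E3, 1 < ‖x‖ → ‖x‖ < R → gradNorm g θ x ≤ B) →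
        (∀ x : E3, 1 < ‖x‖ → ‖x‖ < R → θ x < q ^ 2 / 8 → ‖x‖ ≤ Real.exp 2 * (1 + 100 * C0 / q)) →
        0 ≤ Cc → Cc ≤ M → φ ≤ φ0 →
        BT g θ R q (q ^ 2 / 16) (q ^ 2 / 8) ≤
          (q ^ 2 / 8 - q ^ 2 / 16) * (Real.exp ((2 - q) * (q ^ 2 / 8)) * (4 * Real.pi * Cc ^ (2 - q))) + φ →
        ∃ (F : Set E3) (c : ℝ), Encloses F ∧ AreaLE g a F c ∧ c ≤ 4 * Real.pi * Cc ^ 2 + κ := by
  obtain ⟨L, hL0, hL⟩ := sqrt_det_le hg
  have hvb : 0 < volume.real (Metric.closedBall (0 : E3) 1) := by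
    rw [Measure.real, ENNReal.toReal_pos_iff]
    exact ⟨Metric.measure_closedBall_pos _ _ one_pos, measure_closedBall_lt_top⟩
  set C1 : ℝ := L * ((Real.exp 2 * (1 + 100 * C0)) ^ 3 * volume.real (Metric.closedBall (0 : E3) 1)) with hC1
  have hC10 : 0 < C1 := by positivity
  obtain ⟨q0, hq0, hq01, hnum⟩ := num (M := M) hM hκ hC10
  refine ⟨q0, hq0, hq01, fun q hq hqq => ?_⟩
  obtain ⟨φ0, hφ0, hnum2⟩ := hnum q hq hqq
  refine ⟨q ^ 2 / 16 * φ0, by positivity, ?_⟩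
  intro R T θ Cc φ h hT hreg hb hrad hCc hCM hφ hwin
  have hq2 : 0 < q ^ 2 := by positivity
  have hqle : q ≤ 1 := by linarith
  have hV : ∫ x in lowT θ R (q ^ 2 / 8), Real.sqrt (g x).det ≤ C1 / q ^ 3 := by
    set ρ : ℝ := Real.exp 2 * (1 + 100 * C0 / q) with hρ
    have hρ0 : 0 ≤ ρ := by positivity
    have hρ1 : ρ ≤ Real.exp 2 * (1 + 100 * C0) / q := by
      have h0 : 1 ≤ 1 / q := by rw [le_div_iff₀ hq]; linarith
      have h1 : 1 + 100 * C0 / q ≤ (1 + 100 * C0) / q := by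
        rw [add_div]
        linarith
      rw [hρ, mul_div_assoc (Real.exp 2) (1 + 100 * C0) q]
      exact mul_le_mul_of_nonneg_left h1 (Real.exp_pos _).le
    have hsub : lowT θ R (q ^ 2 / 8) ⊆ Metric.closedBall 0 ρ := by
      intro x hx
      rw [mem_closedBall_zero_iff]
      exact hrad x hx.1 hx.2.1 hx.2.2
    have hfin : volume (lowT θ R (q ^ 2 / 8)) ≠ ⊤ :=
      ne_top_of_le_ne_top (measure_closedBall_lt_top (μ := (volume : Measure E3)) (x := 0) (r := ρ)).ne (measure_mono hsub)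
    have h1 : ∫ x in lowT θ R (q ^ 2 / 8), Real.sqrt (g x).det ≤ ∫ _ in lowT θ R (q ^ 2 / 8), L := by
      apply setIntegral_mono_on ((int_w (AF.toSmM hg) hg.lt R).mono_set lowT_sub') (integrableOn_const hfin)
        (meas_lowT h _)
      intro x hx
      exact hL x hx.1.le
    rw [setIntegral_const, smul_eq_mul] at h1
    have h2 : volume.real (lowT θ R (q ^ 2 / 8)) ≤ ρ ^ 3 * volume.real (Metric.closedBall (0 : E3) 1) := by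
      have h3 : volume.real (lowT θ R (q ^ 2 / 8)) ≤ volume.real (Metric.closedBall (0:E3) ρ) :=
        measureReal_mono hsub measure_closedBall_lt_top.ne
      refine h3.trans (le_of_eq ?_)
      rw [Measure.real, Measure.addHaar_closedBall' _ _ hρ0, ENNReal.toReal_mul, ENNReal.toReal_ofReal (by positivity),
        Measure.real]
      simp
    have h4 : ρ ^ 3 ≤ (Real.exp 2 * (1 + 100 * C0)) ^ 3 / q ^ 3 := by
      rw [← div_pow]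
      exact pow_le_pow_left₀ hρ0 hρ1 3
    calc ∫ x in lowT θ R (q ^ 2 / 8), Real.sqrt (g x).det ≤ volume.real (lowT θ R (q ^ 2 / 8)) * L := h1
      _ ≤ (ρ ^ 3 * volume.real (Metric.closedBall (0 : E3) 1)) * L := mul_le_mul_of_nonneg_right h2 hL0.le
      _ ≤ (((Real.exp 2 * (1 + 100 * C0)) ^ 3 / q ^ 3) * volume.real (Metric.closedBall (0 : E3) 1)) * L := by
          apply mul_le_mul_of_nonneg_right _ hL0.le
          exact mul_le_mul_of_nonneg_right h4 hvb.le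
      _ = C1 / q ^ 3 := by rw [hC1]; ring
  set Φ : ℝ := Real.exp ((2 - q) * (q ^ 2 / 8)) * (4 * Real.pi * Cc ^ (2 - q) + φ0) with hΦ
  have hpw : 0 ≤ Cc ^ (2 - q) := Real.rpow_nonneg hCc _
  have hΦ0 : 0 ≤ Φ := by positivity
  have hwin2 : BT g θ R q (q ^ 2 / 16) (q ^ 2 / 8) ≤ (q ^ 2 / 8 - q ^ 2 / 16) * Φ := by
    refine hwin.trans ?_
    have h1 : 1 ≤ Real.exp ((2 - q) * (q ^ 2 / 8)) := Real.one_le_exp (by
      apply mul_nonneg <;> [linarith; positivity])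
    have h2 : q ^ 2 / 16 * φ0 ≤ q ^ 2 / 16 * (Real.exp ((2 - q) * (q ^ 2 / 8)) * φ0) := by
      apply mul_le_mul_of_nonneg_left _ (by positivity)
      exact le_mul_of_one_le_left hφ0.le h1
    rw [hΦ]
    have h3 : (q ^ 2 / 8 - q ^ 2 / 16) * (Real.exp ((2 - q) * (q ^ 2 / 8)) * (4 * Real.pi * Cc ^ (2 - q) + φ0)) =
        (q ^ 2 / 8 - q ^ 2 / 16) * (Real.exp ((2 - q) * (q ^ 2 / 8)) * (4 * Real.pi * Cc ^ (2 - q))) +
          q ^ 2 / 16 * (Real.exp ((2 - q) * (q ^ 2 / 8)) * φ0) := by ring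
    rw [h3]
    linarith
  obtain ⟨B, hB⟩ := hb
  obtain ⟨τ, hτ1, hτ2, hτ3, hτ4⟩ := area_step h (AF.toSmM hg) hg.lt hq (show (0:ℝ) < q ^ 2 / 16 by positivity)
    (by linarith) hT hreg ⟨B, fun x hx => hB x hx.1 hx.2⟩ hΦ0 hwin2 hV
  exact ⟨_, _, hτ3, hτ4, hnum2 Cc hCc hCM⟩

/-- BLOCK AREA. -/
theorem area_fin (hg : AF g a) {C0 M κ : ℝ} (hC0 : 0 ≤ C0) (hM : 0 ≤ M) (hκ : 0 < κ) :
    ∃ q0 : ℝ, 0 < q0 ∧ q0 ≤ 1 / 2 ∧ ∀ q : ℝ, 0 < q → q < q0 → ∃ φ0 : ℝ, 0 < φ0 ∧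
      ∀ (R T : ℝ) (θ : E3 → ℝ) (Cc φ : ℝ), LevFun θ R T → q ^ 2 / 8 < T →
        (∀ᵐ τ : ℝ, 0 < τ → τ < T → ∀ x : E3, 1 < ‖x‖ → ‖x‖ < R → θ x = τ → fderiv ℝ θ x ≠ 0) →
        (∃ B : ℝ, ∀ x : E3, 1 < ‖x‖ → ‖x‖ < R → gradNorm g θ x ≤ B) →
        (∀ x : E3, 1 < ‖x‖ → ‖x‖ < R → θ x < q ^ 2 / 8 → ‖x‖ ≤ Real.exp 2 * (1 + 100 * C0 / q)) →
        0 ≤ Cc → Cc ≤ M → φ ≤ φ0 →
        (∀ s t : ℝ, 0 < s → s < t → t ≤ q ^ 2 / 8 →
          BT g θ R q s t ≤ (t - s) * (Real.exp ((2 - q) * t) * (4 * Real.pi * Cc ^ (2 - q) + φ))) →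
        ∃ (F : Set E3) (c : ℝ), Encloses F ∧ AreaLE g a F c ∧ c ≤ 4 * Real.pi * Cc ^ 2 + κ := by
  obtain ⟨q0, hq0, hq01, h0⟩ := area_add hg (C0 := C0) hC0 hM hκ
  refine ⟨q0, hq0, hq01, fun q hq hqq => ?_⟩
  obtain ⟨φ0, hφ0, h1⟩ := h0 q hq hqq
  have hE : 0 < (q ^ 2 / 8 - q ^ 2 / 16) * Real.exp ((2 - q) * (q ^ 2 / 8)) := by
    have : q ^ 2 / 8 - q ^ 2 / 16 = q ^ 2 / 16 := by ring
    rw [this]
    positivity
  refine ⟨φ0 / ((q ^ 2 / 8 - q ^ 2 / 16) * Real.exp ((2 - q) * (q ^ 2 / 8))), by positivity, ?_⟩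
  intro R T θ Cc φ h hT hreg hb hrad hCc hCM hφ hF
  have hq2 : 0 < q ^ 2 := by positivity
  refine h1 R T θ Cc (φ * ((q ^ 2 / 8 - q ^ 2 / 16) * Real.exp ((2 - q) * (q ^ 2 / 8)))) h hT hreg hb hrad hCc hCM
    (by rwa [le_div_iff₀ hE] at hφ) ?_
  refine (hF (q ^ 2 / 16) (q ^ 2 / 8) (by positivity) (by linarith) le_rfl).trans (le_of_eq ?_)
  ring

end UMB.AREA
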